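import Pool.Agent.Y248.FB.Stm
set_option autoImplicit false

/-! # Project FB, job DU: the dual estimate for functions supported in small sets -/

namespace Pool.Agent.Y356.FB

open MeasureTheory Set Metric Complex Filter
open scoped ENNReal RealInnerProductSpace Topology FourierTransform Convolution
open Pool.Agent.H789R2.FR (E)
open Pool.Agent.Y248.FB

variable {n : ℕ}

theorem ml_meas (δ R : ℝ) : Measurable (ml (n := n) δ R) := by
  unfold ml
  refine Measurable.ite (measurableSet_lt measurable_norm measurable_const) ?_ measurable_const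
  fun_prop

theorem ml_bdd {δ : ℝ} (hδ : 0 ≤ δ) (ξ : E n) : ‖ml δ 1 ξ‖ ≤ 1 := by
  unfold ml
  split_ifs with h
  · rw [Complex.norm_real, Real.norm_eq_abs]
    have h0 : 0 ≤ ‖ξ‖ := norm_nonneg _
    have h1 : 0 ≤ 1 - ‖ξ‖ ^ 2 / (1 : ℝ) ^ 2 := by
      have : ‖ξ‖ ^ 2 ≤ 1 := by nlinarith
      simpa using this
    have h2 : 1 - ‖ξ‖ ^ 2 / (1 : ℝ) ^ 2 ≤ 1 := by
      have : 0 ≤ ‖ξ‖ ^ 2 := by positivity
      simpa using this
    rw [abs_of_nonneg (Real.rpow_nonneg h1 _)]
    exact Real.rpow_le_one h1 h2 hδ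
  · simp

theorem ml_neg (δ R : ℝ) (ξ : E n) : ml δ R (-ξ) = ml δ R ξ := by simp [ml]

theorem mlF_int {δ : ℝ} (hδ : 0 ≤ δ) (f : SchwartzMap (E n) ℂ) :
    Integrable (fun ξ => ml δ 1 ξ * 𝓕 (fun y => f y) ξ) := by
  have h1 : Integrable (𝓕 (fun y : E n => f y)) := (𝓕 f).integrable
  exact h1.bdd_mul (ml_meas δ 1).aestronglyMeasurable (Eventually.of_forall (ml_bdd hδ))

theorem Sm_eq (δ : ℝ) (f : E n → ℂ) (x : E n) :
    Sm δ 1 f x = 𝓕⁻ (fun ξ => ml δ 1 ξ * 𝓕 f ξ) x := by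
  rw [Real.fourierInv_eq', Sm]
  refine integral_congr_ae (Eventually.of_forall fun ξ => ?_)
  simp only [smul_eq_mul]
  rw [real_inner_comm x ξ, mul_comm]

theorem fl {g h : E n → ℂ} (hg : Integrable g) (hh : Integrable h) :
    ∫ x, 𝓕 g x * h x = ∫ x, g x * 𝓕 h x := by
  simpa using! VectorFourier.integral_bilin_fourierIntegral_eq_flip (ContinuousLinearMap.mul ℂ ℂ)
    (L := innerₗ (E n)) Real.continuous_fourierChar continuous_inner hg hh

theorem Sm_pair {δ : ℝ} (hδ : 0 ≤ δ) (f h : SchwartzMap (E n) ℂ) :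
    ∫ x, Sm δ 1 (fun y => f y) x * h x
      = ∫ ξ, ml δ 1 ξ * 𝓕 (fun y => f y) (-ξ) * 𝓕 (fun y => h y) ξ := by
  have h1 : ∀ x, Sm δ 1 (fun y => f y) x
      = 𝓕 (fun ξ => ml δ 1 ξ * 𝓕 (fun y => f y) (-ξ)) x := by
    intro x
    rw [Sm_eq, Real.fourierInv_eq_fourier_comp_neg]
    simp only [ml_neg]
  simp_rw [h1]
  have h2 : Integrable (fun ξ => ml δ 1 ξ * 𝓕 (fun y => f y) (-ξ)) := by
    have := (mlF_int hδ f).comp_neg
    simpa only [ml_neg] using this
  exact fl h2 h.integrable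

theorem Sm_dual {δ : ℝ} (hδ : 0 ≤ δ) (f h : SchwartzMap (E n) ℂ) :
    ∫ x, Sm δ 1 (fun y => f y) x * h x = ∫ x, f x * Sm δ 1 (fun y => h y) x := by
  have e : ∫ x, f x * Sm δ 1 (fun y => h y) x = ∫ x, Sm δ 1 (fun y => h y) x * f x :=
    integral_congr_ae (Eventually.of_forall fun x => mul_comm _ _)
  rw [e, Sm_pair hδ, Sm_pair hδ, ← integral_neg_eq_self]
  refine integral_congr_ae (Eventually.of_forall fun ξ => ?_)
  simp only [ml_neg, neg_neg]
  ring

theorem Sm_cont {δ : ℝ} (hδ : 0 ≤ δ) (f : SchwartzMap (E n) ℂ) :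
    Continuous (Sm (n := n) δ 1 (fun y => f y)) := by
  have h1 : Sm (n := n) δ 1 (fun y => f y) = 𝓕⁻ (fun ξ => ml δ 1 ξ * 𝓕 (fun y => f y) ξ) := by
    funext x; exact Sm_eq δ _ x
  rw [h1]
  exact VectorFourier.fourierIntegral_continuous Real.continuous_fourierChar
    (L := -innerₗ (E n)) (continuous_inner.neg) (mlF_int hδ f)

theorem Sm_bdd {δ : ℝ} (hδ : 0 ≤ δ) (f : SchwartzMap (E n) ℂ) :
    ∃ M : ℝ, 0 ≤ M ∧ ∀ x, ‖Sm δ 1 (fun y => f y) x‖ ≤ M := by
  refine ⟨∫ ξ, ‖ml δ 1 ξ * 𝓕 (fun y => f y) ξ‖, integral_nonneg fun _ => norm_nonneg _, fun x => ?_⟩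
  rw [Sm_eq]
  exact VectorFourier.norm_fourierIntegral_le_integral_norm _ _ _ _ _


theorem pair_le {p q δ : ℝ} (hpq : q.HolderConjugate p) (hδ : 0 ≤ δ) {K : ℝ≥0∞} {G : Set (E n)}
    (hG : MeasurableSet G) (f h : SchwartzMap (E n) ℂ) (hf : ∀ x, x ∉ G → f x = 0)
    (hh : ∫⁻ x in G, ‖Sm δ 1 (fun y => h y) x‖ₑ ^ p ≤ K * ∫⁻ x, ‖h x‖ₑ ^ p) :
    ‖∫ x, Sm δ 1 (fun y => f y) x * h x‖ₑ ≤
      ((∫⁻ x, ‖f x‖ₑ ^ q) ^ (1 / q) * K ^ (1 / p)) * (∫⁻ x, ‖h x‖ₑ ^ p) ^ (1 / p) := by
  have hp : 0 < p := hpq.symm.pos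
  have hq : 0 < q := hpq.pos
  rw [Sm_dual hδ]
  calc ‖∫ x, f x * Sm δ 1 (fun y => h y) x‖ₑ
      ≤ ∫⁻ x, ‖f x * Sm δ 1 (fun y => h y) x‖ₑ := enorm_integral_le_lintegral_enorm _
    _ = ∫⁻ x in G, ‖f x‖ₑ * ‖Sm δ 1 (fun y => h y) x‖ₑ := by
        rw [← lintegral_indicator hG]
        refine lintegral_congr fun x => ?_
        by_cases hx : x ∈ G
        · rw [indicator_of_mem hx, enorm_mul]
        · rw [indicator_of_notMem hx, hf x hx, zero_mul, enorm_zero]
    _ ≤ (∫⁻ x in G, ‖f x‖ₑ ^ q) ^ (1 / q) *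
          (∫⁻ x in G, ‖Sm δ 1 (fun y => h y) x‖ₑ ^ p) ^ (1 / p) :=
        ENNReal.lintegral_mul_le_Lp_mul_Lq _ hpq
          (f.continuous.enorm.measurable.aemeasurable)
          ((Sm_cont hδ h).enorm.measurable.aemeasurable)
    _ ≤ (∫⁻ x, ‖f x‖ₑ ^ q) ^ (1 / q) * (K * ∫⁻ x, ‖h x‖ₑ ^ p) ^ (1 / p) := by
        gcongr
        exact Measure.restrict_le_self
    _ = _ := by
        rw [ENNReal.mul_rpow_of_nonneg _ _ (by positivity), mul_assoc]

theorem approx_le {F : E n → ℂ} (hF : Continuous F) {MF : ℝ} (hFb : ∀ x, ‖F x‖ ≤ MF) {p : ℝ}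
    (hp : 0 < p) {B : ℝ≥0∞} (hB : B ≠ ∞)
    (H : ∀ h : SchwartzMap (E n) ℂ,
      ‖∫ x, F x * h x‖ₑ ≤ B * (∫⁻ x, ‖h x‖ₑ ^ p) ^ (1 / p))
    {h0 : E n → ℂ} (hm : Measurable h0) {M N : ℝ} (hM : ∀ x, ‖h0 x‖ ≤ M)
    (hN : ∀ x, x ∉ closedBall (0 : E n) N → h0 x = 0) :
    ‖∫ x, F x * h0 x‖ₑ ≤ B * (∫⁻ x, ‖h0 x‖ₑ ^ p) ^ (1 / p) := by
  have hM0 : 0 ≤ M := (norm_nonneg _).trans (hM 0)
  have hMF0 : 0 ≤ MF := (norm_nonneg _).trans (hFb 0)
  have hi0 : Integrable h0 := by
    have h1 : IntegrableOn (fun _ : E n => M) (closedBall (0 : E n) N) :=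
      integrableOn_const (measure_closedBall_lt_top).ne
    have h2 : Integrable ((closedBall (0 : E n) N).indicator fun _ => M) :=
      h1.integrable_indicator measurableSet_closedBall
    refine h2.mono' hm.aestronglyMeasurable (Eventually.of_forall fun x => ?_)
    by_cases hx : x ∈ closedBall (0 : E n) N
    · rw [indicator_of_mem hx]; exact hM x
    · rw [indicator_of_notMem hx, hN x hx, norm_zero]
  let φ : ℕ → ContDiffBump (0 : E n) := fun i =>
    { rIn := 1 / (2 * ((i : ℝ) + 1)), rOut := 1 / ((i : ℝ) + 1)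
      rIn_pos := by positivity
      rIn_lt_rOut := by
        apply one_div_lt_one_div_of_lt (by positivity)
        have : (0 : ℝ) < (i : ℝ) + 1 := by positivity
        linarith }
  have hφ0 : Tendsto (fun i => (φ i).rOut) atTop (𝓝 0) := tendsto_one_div_add_atTop_nhds_zero_nat
  have hφK : ∀ᶠ i in atTop, (φ i).rOut ≤ 2 * (φ i).rIn := by
    refine Eventually.of_forall fun i => ?_
    show 1 / ((i : ℝ) + 1) ≤ 2 * (1 / (2 * ((i : ℝ) + 1)))
    apply le_of_eq
    field_simp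
  have hφ1 : ∀ i, (φ i).rOut ≤ 1 := by
    intro i
    show 1 / ((i : ℝ) + 1) ≤ 1
    rw [div_le_one (by positivity)]
    have : (0 : ℝ) ≤ i := Nat.cast_nonneg i
    linarith
  set h : ℕ → E n → ℂ := fun i =>
    ((φ i).normed volume ⋆[ContinuousLinearMap.lsmul ℝ ℝ, volume] h0) with hh
  have hlim : ∀ᵐ x, Tendsto (fun i => h i x) atTop (𝓝 (h0 x)) :=
    ContDiffBump.ae_convolution_tendsto_right_of_locallyIntegrable hφ0 hφK
      hi0.locallyIntegrable
  have hb : ∀ i x, ‖h i x‖ ≤ M := by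
    intro i x
    rw [hh]
    simp only [convolution_def, ContinuousLinearMap.lsmul_apply]
    calc ‖∫ t, (φ i).normed volume t • h0 (x - t)‖
        ≤ ∫ t, (φ i).normed volume t * M := by
          refine norm_integral_le_of_norm_le ((φ i).integrable_normed.mul_const _)
            (Eventually.of_forall fun t => ?_)
          rw [norm_smul, Real.norm_eq_abs, abs_of_nonneg ((φ i).nonneg_normed t)]
          exact mul_le_mul_of_nonneg_left (hM _) ((φ i).nonneg_normed t)
      _ = M := by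
          rw [integral_mul_const, (φ i).integral_normed, one_mul]
  have hz : ∀ i x, x ∉ closedBall (0 : E n) (N + 1) → h i x = 0 := by
    intro i x hx
    by_contra hne
    have h1 : x ∈ Function.support (h i) := hne
    have h2 := support_convolution_subset (L := ContinuousLinearMap.lsmul ℝ ℝ) (μ := volume) h1
    obtain ⟨a, ha, b, hb', hab⟩ := Set.mem_add.1 h2
    rw [(φ i).support_normed_eq, mem_ball_zero_iff] at ha
    have hb2 : b ∈ closedBall (0 : E n) N := by
      by_contra hc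
      exact hb' (hN b hc)
    rw [mem_closedBall_zero_iff] at hb2 hx
    apply hx
    rw [← hab]
    have := norm_add_le a b
    have := hφ1 i
    linarith
  have hcs : ∀ i, HasCompactSupport (h i) := by
    intro i
    exact HasCompactSupport.of_support_subset_isCompact (isCompact_closedBall (0 : E n) (N + 1))
      (fun x hx => by
        by_contra hc
        exact hx (hz i x hc))
  have hsm : ∀ i, ContDiff ℝ ((⊤ : ℕ∞) : WithTop ℕ∞) (h i) := by
    intro i
    exact (φ i).hasCompactSupport_normed.contDiff_convolution_left _ (φ i).contDiff_normed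
      hi0.locallyIntegrable
  have hI : Integrable ((closedBall (0 : E n) (N + 1)).indicator fun _ => MF * M) :=
    (integrableOn_const (measure_closedBall_lt_top).ne).integrable_indicator
      measurableSet_closedBall
  have hT1 : Tendsto (fun i => ∫ x, F x * h i x) atTop (𝓝 (∫ x, F x * h0 x)) := by
    refine tendsto_integral_of_dominated_convergence _ (fun i => ?_) hI (fun i => ?_) ?_
    · exact (hF.mul (hsm i).continuous).aestronglyMeasurable
    · refine Eventually.of_forall fun x => ?_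
      by_cases hx : x ∈ closedBall (0 : E n) (N + 1)
      · rw [indicator_of_mem hx, norm_mul]
        exact mul_le_mul (hFb x) (hb i x) (norm_nonneg _) hMF0
      · rw [indicator_of_notMem hx, hz i x hx, mul_zero, norm_zero]
    · filter_upwards [hlim] with x hx
      exact tendsto_const_nhds.mul hx
  have hT2 : Tendsto (fun i => ∫⁻ x, ‖h i x‖ₑ ^ p) atTop (𝓝 (∫⁻ x, ‖h0 x‖ₑ ^ p)) := by
    refine tendsto_lintegral_of_dominated_convergence
      ((closedBall (0 : E n) (N + 1)).indicator fun _ => ENNReal.ofReal M ^ p) (fun i => ?_)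
      (fun i => ?_) ?_ ?_
    · exact ((hsm i).continuous.enorm.measurable).pow_const _
    · refine Eventually.of_forall fun x => ?_
      by_cases hx : x ∈ closedBall (0 : E n) (N + 1)
      · rw [indicator_of_mem hx]
        refine ENNReal.rpow_le_rpow ?_ hp.le
        rw [← ofReal_norm]
        exact ENNReal.ofReal_le_ofReal (hb i x)
      · rw [indicator_of_notMem hx]
        show ‖h i x‖ₑ ^ p ≤ 0
        rw [hz i x hx, enorm_zero, ENNReal.zero_rpow_of_pos hp]
    · rw [lintegral_indicator measurableSet_closedBall, setLIntegral_const]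
      exact ENNReal.mul_ne_top (ENNReal.rpow_ne_top_of_nonneg hp.le ENNReal.ofReal_ne_top)
        (measure_closedBall_lt_top).ne
    · filter_upwards [hlim] with x hx
      exact (ENNReal.continuous_rpow_const.tendsto _).comp hx.enorm
  refine le_of_tendsto_of_tendsto' hT1.enorm
    (ENNReal.Tendsto.const_mul ((ENNReal.continuous_rpow_const.tendsto _).comp hT2)
      (Or.inr hB)) fun i => ?_
  exact H ((hcs i).toSchwartzMap (hsm i))


theorem conj_mul_aux {q : ℝ} (hq : 1 < q) (z : ℂ) :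
    z * ((starRingEnd ℂ) z * ((‖z‖ ^ (q - 2) : ℝ) : ℂ)) = ((‖z‖ ^ q : ℝ) : ℂ) := by
  rw [← mul_assoc, Complex.mul_conj, ← Complex.ofReal_mul]
  congr 1
  rcases eq_or_ne z 0 with h | h
  · subst h
    rw [map_zero, zero_mul, norm_zero, Real.zero_rpow (by linarith)]
  · have hz : 0 < ‖z‖ := norm_pos_iff.2 h
    rw [Complex.normSq_eq_norm_sq, ← Real.rpow_natCast ‖z‖ 2, ← Real.rpow_add hz]
    congr 1
    push_cast
    ring

theorem norm_aux {q : ℝ} (hq : 1 < q) (z : ℂ) :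
    ‖(starRingEnd ℂ) z * ((‖z‖ ^ (q - 2) : ℝ) : ℂ)‖ = ‖z‖ ^ (q - 1) := by
  rw [norm_mul, RCLike.norm_conj, Complex.norm_real, Real.norm_eq_abs,
    abs_of_nonneg (Real.rpow_nonneg (norm_nonneg _) _)]
  rcases eq_or_ne z 0 with h | h
  · subst h
    rw [norm_zero, zero_mul, Real.zero_rpow (by linarith)]
  · have hz : 0 < ‖z‖ := norm_pos_iff.2 h
    nth_rewrite 1 [← Real.rpow_one ‖z‖]
    rw [← Real.rpow_add hz]
    congr 1
    ring

theorem ball_le {F : E n → ℂ} (hF : Continuous F) {MF : ℝ} (hFb : ∀ x, ‖F x‖ ≤ MF) {p q : ℝ}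
    (hpq : q.HolderConjugate p) {B : ℝ≥0∞} (hB : B ≠ ∞)
    (H : ∀ h : SchwartzMap (E n) ℂ,
      ‖∫ x, F x * h x‖ₑ ≤ B * (∫⁻ x, ‖h x‖ₑ ^ p) ^ (1 / p)) (N : ℝ) :
    ∫⁻ x in closedBall (0 : E n) N, ‖F x‖ₑ ^ q ≤ B ^ q := by
  have hp : 0 < p := hpq.symm.pos
  have hq : 0 < q := hpq.pos
  have hq1 : 1 < q := hpq.lt
  have hp1 : 1 < p := hpq.symm.lt
  have hMF0 : 0 ≤ MF := (norm_nonneg _).trans (hFb 0)
  have hqp : (q - 1) * p = q := by
    have := hpq.sub_one_mul_conj
    linarith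
  set S := closedBall (0 : E n) N with hS
  have hSm : MeasurableSet S := measurableSet_closedBall
  set h0 : E n → ℂ := S.indicator fun x => (starRingEnd ℂ) (F x) * ((‖F x‖ ^ (q - 2) : ℝ) : ℂ)
    with hh0
  have hm : Measurable h0 := by
    refine Measurable.indicator ?_ hSm
    have h1 : Measurable F := hF.measurable
    have h2 : Measurable fun x => (starRingEnd ℂ) (F x) :=
      (Complex.continuous_conj.comp hF).measurable
    exact h2.mul (Complex.measurable_ofReal.comp ((h1.norm).pow_const _))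
  have hnorm : ∀ x ∈ S, ‖h0 x‖ = ‖F x‖ ^ (q - 1) := by
    intro x hx
    rw [hh0, indicator_of_mem hx]
    exact norm_aux hq1 _
  have hM : ∀ x, ‖h0 x‖ ≤ MF ^ (q - 1) := by
    intro x
    by_cases hx : x ∈ S
    · rw [hnorm x hx]
      exact Real.rpow_le_rpow (norm_nonneg _) (hFb x) (by linarith)
    · rw [hh0, indicator_of_notMem hx, norm_zero]
      positivity
  have hN : ∀ x, x ∉ closedBall (0 : E n) N → h0 x = 0 := fun x hx => by
    rw [hh0, indicator_of_notMem hx]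
  have key := approx_le hF hFb hp hB H hm hM hN
  set A := ∫⁻ x in S, ‖F x‖ₑ ^ q with hA
  -- the left side
  have hgi : Integrable (S.indicator fun x => ‖F x‖ ^ q) := by
    refine IntegrableOn.integrable_indicator ?_ hSm
    refine (hF.norm.rpow_const fun x => Or.inr hq.le).continuousOn.integrableOn_compact
      (isCompact_closedBall _ _)
  have hl : ‖∫ x, F x * h0 x‖ₑ = A := by
    have e1 : ∫ x, F x * h0 x = ((∫ x, S.indicator (fun x => ‖F x‖ ^ q) x : ℝ) : ℂ) := by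
      rw [← integral_complex_ofReal]
      refine integral_congr_ae (Eventually.of_forall fun x => ?_)
      by_cases hx : x ∈ S
      · simp only [hh0, indicator_of_mem hx]
        exact conj_mul_aux hq1 _
      · simp only [hh0, indicator_of_notMem hx, mul_zero, Complex.ofReal_zero]
    have e2 : 0 ≤ ∫ x, S.indicator (fun x => ‖F x‖ ^ q) x := by
      refine integral_nonneg fun x => ?_
      exact indicator_nonneg (fun y _ => Real.rpow_nonneg (norm_nonneg _) _) x
    rw [e1, ← ofReal_norm, Complex.norm_real, Real.norm_eq_abs, abs_of_nonneg e2,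
      ofReal_integral_eq_lintegral_ofReal hgi (Eventually.of_forall fun x =>
        indicator_nonneg (fun y _ => Real.rpow_nonneg (norm_nonneg _) _) x), hA,
      ← lintegral_indicator hSm]
    refine lintegral_congr fun x => ?_
    by_cases hx : x ∈ S
    · rw [indicator_of_mem hx, indicator_of_mem hx,
        ← ENNReal.ofReal_rpow_of_nonneg (norm_nonneg _) hq.le, ofReal_norm]
    · rw [indicator_of_notMem hx, indicator_of_notMem hx, ENNReal.ofReal_zero]
  have hr : ∫⁻ x, ‖h0 x‖ₑ ^ p = A := by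
    rw [hA, ← lintegral_indicator hSm]
    refine lintegral_congr fun x => ?_
    by_cases hx : x ∈ S
    · rw [indicator_of_mem hx, ← ofReal_norm, hnorm x hx,
        ← ENNReal.ofReal_rpow_of_nonneg (norm_nonneg _) (by linarith), ofReal_norm,
        ← ENNReal.rpow_mul, hqp]
    · rw [indicator_of_notMem hx, hN x hx, enorm_zero, ENNReal.zero_rpow_of_pos hp]
  rw [hl, hr] at key
  have hAt : A ≠ ∞ := by
    have e1 : A ≤ ∫⁻ x in S, ENNReal.ofReal MF ^ q := by
      refine lintegral_mono fun x => ENNReal.rpow_le_rpow ?_ hq.le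
      rw [← ofReal_norm]
      exact ENNReal.ofReal_le_ofReal (hFb x)
    refine ne_top_of_le_ne_top ?_ e1
    rw [setLIntegral_const]
    exact ENNReal.mul_ne_top (ENNReal.rpow_ne_top_of_nonneg hq.le ENNReal.ofReal_ne_top)
      (measure_closedBall_lt_top).ne
  rcases eq_or_ne A 0 with h | h
  · rw [h]; exact bot_le
  · have e1 : A ^ (1 / q) * A ^ (1 / p) = A := by
      rw [← ENNReal.rpow_add _ _ h hAt]
      have : 1 / q + 1 / p = 1 := by
        have := hpq.inv_add_inv_eq_one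
        simpa [one_div] using this
      rw [this, ENNReal.rpow_one]
    have e2 : A ^ (1 / p) ≠ 0 := (ENNReal.rpow_pos (pos_iff_ne_zero.2 h) hAt).ne'
    have e3 : A ^ (1 / p) ≠ ∞ := ENNReal.rpow_ne_top_of_nonneg (by positivity) hAt
    have e4 : A ^ (1 / q) ≤ B := by
      have : A ^ (1 / q) * A ^ (1 / p) ≤ B * A ^ (1 / p) := by rw [e1]; exact key
      exact (ENNReal.mul_le_mul_iff_left e2 e3).1 this
    calc A = (A ^ (1 / q)) ^ q := by
          rw [← ENNReal.rpow_mul, one_div_mul_cancel hq.ne', ENNReal.rpow_one]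
      _ ≤ B ^ q := ENNReal.rpow_le_rpow e4 hq.le

theorem t_du (n : ℕ) (_hn : 2 ≤ n) : S_DU n := by
  intro α p q δ hp hpq hδ hMX
  obtain ⟨C, hC, hMX⟩ := hMX
  have hpq' : p.HolderConjugate q := by
    rw [Real.holderConjugate_iff]
    exact ⟨hp, by simpa [one_div] using hpq⟩
  have hq : 0 < q := hpq'.symm.pos
  refine ⟨C ^ (q / p), Real.rpow_pos_of_pos hC _, fun G hG hD f hf => ?_⟩
  set F : E n → ℂ := Sm δ 1 (fun y => f y) with hF
  obtain ⟨MF, -, hFb⟩ := Sm_bdd hδ f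
  set B : ℝ≥0∞ := (∫⁻ x, ‖f x‖ₑ ^ q) ^ (1 / q) * (ENNReal.ofReal C) ^ (1 / p) with hB
  have H : ∀ h : SchwartzMap (E n) ℂ,
      ‖∫ x, F x * h x‖ₑ ≤ B * (∫⁻ x, ‖h x‖ₑ ^ p) ^ (1 / p) := by
    intro h
    refine pair_le hpq'.symm hδ hG f h hf ?_
    exact hMX _ hD (fun _ => 1) measurable_const (fun _ => ⟨one_pos, le_rfl⟩) h
  have hfi : ∫⁻ x, ‖f x‖ₑ ^ q < ∞ := by
    have h1 := (f.memLp (ENNReal.ofReal q) volume).2
    have h2 := lintegral_rpow_enorm_lt_top_of_eLpNorm_lt_top (p := ENNReal.ofReal q)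
      (by simpa using hq) ENNReal.ofReal_ne_top h1
    rwa [ENNReal.toReal_ofReal hq.le] at h2
  have hBt : B ≠ ∞ := by
    rw [hB]
    exact ENNReal.mul_ne_top (ENNReal.rpow_ne_top_of_nonneg (by positivity) hfi.ne)
      (ENNReal.rpow_ne_top_of_nonneg (one_div_nonneg.2 hpq'.pos.le) ENNReal.ofReal_ne_top)
  have hball := fun N : ℝ => ball_le (Sm_cont hδ f) hFb hpq'.symm hBt H N
  have hBq : B ^ q = ENNReal.ofReal (C ^ (q / p)) * ∫⁻ x, ‖f x‖ₑ ^ q := by
    rw [hB, ENNReal.mul_rpow_of_nonneg _ _ hq.le, ← ENNReal.rpow_mul, ← ENNReal.rpow_mul,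
      one_div_mul_cancel hq.ne', ENNReal.rpow_one, mul_comm,
      ← ENNReal.ofReal_rpow_of_pos hC]
    congr 2
    ring
  rw [← hBq]
  have hU : (⋃ k : ℕ, closedBall (0 : E n) (k : ℝ)) = univ := by
    rw [iUnion_closedBall_nat]
  rw [← setLIntegral_univ, ← hU, setLIntegral_iUnion_of_directed]
  · exact iSup_le fun k => hball k
  · intro a b
    exact ⟨max a b, closedBall_subset_closedBall (by exact_mod_cast le_max_left a b),
      closedBall_subset_closedBall (by exact_mod_cast le_max_right a b)⟩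

end Pool.Agent.Y356.FB
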